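import Pool.Agent.H20.Re2

namespace Pool.Agent.Results.MP_b4b0f8_co.OddRegular
open Pool.Agent.H20

theorem result (k n : ℕ) (hn : 0 < n) (G : SimpleGraph (Fin n)) [DecidableRel G.Adj]
    (h : G.IsRegularOfDegree (2 * k + 1)) : reNum G + 1 ≤ n := by
  have : Nonempty (Fin n) := ⟨⟨0, hn⟩⟩
  simpa using Re.main G k h

end Pool.Agent.Results.MP_b4b0f8_co.OddRegular
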